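import Pool.Agent.H86.CunB

set_option autoImplicit false

namespace Pool.Agent.Results.MP_8219a1_an.PeakVac

open scoped ComplexOrder

universe u

/-- the only closed two-sided ideals are `0` and the whole algebra -/
def IsSimple (A : Type) [CStarAlgebra A] : Prop :=
  ∀ I : TwoSidedIdeal A, IsClosed (I : Set A) → I = ⊥ ∨ I = ⊤

/-- a state: a positive linear functional of norm one -/
def IsState {B : Type u} [NonUnitalCStarAlgebra B] (f : B →L[ℂ] ℂ) : Prop :=
  (∀ x, 0 ≤ f (star x * x)) ∧ ‖f‖ = 1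

/-- a pure state: an extreme point of the state space -/
def IsPure {A : Type} [CStarAlgebra A] (f : A →L[ℂ] ℂ) : Prop :=
  f ∈ Set.extremePoints ℝ {g : A →L[ℂ] ℂ | IsState g}

/-- `g` is the only state on `B` that extends `f` along `ι` -/
def UniqueExt {A : Type} [CStarAlgebra A] {B : Type u} [NonUnitalCStarAlgebra B]
    (ι : A →⋆ₙₐ[ℂ] B) (f : A →L[ℂ] ℂ) (g : B →L[ℂ] ℂ) : Prop :=
  IsState g ∧ (∀ a, g (ι a) = f a) ∧ ∀ g', IsState g' → (∀ a, g' (ι a) = f a) → g' = g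

open Pool.Agent.H86.Cun Filter Topology

theorem bd {B : Type*} [NormedAddCommGroup B] [NormedSpace ℂ B] {f : B →L[ℂ] ℂ} (h : ‖f‖ ≤ 1)
    (x : B) : ‖f x‖ ≤ ‖x‖ := by simpa using f.le_of_opNorm_le h x

theorem nrm {B : Type*} [NormedAddCommGroup B] [NormedSpace ℂ B] {f : B →L[ℂ] ℂ} (h : ‖f‖ ≤ 1)
    {x : B} (hx : ‖x‖ ≤ 1) (h1 : f x = 1) : ‖f‖ = 1 := by
  have := f.le_opNorm x
  rw [h1, norm_one] at this
  nlinarith [norm_nonneg f]

theorem conv {z w : ℂ} {a b : ℝ} (ha : 0 < a) (hb : 0 < b) (hab : a + b = 1) (hz : ‖z‖ ≤ 1)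
    (hw : ‖w‖ ≤ 1) (h : a • z + b • w = 1) : z = 1 := by
  have h1 := congrArg Complex.re h
  simp only [Complex.real_smul, Complex.add_re, Complex.re_ofReal_mul, Complex.one_re] at h1
  have h2 := (Complex.re_le_norm w).trans hw
  exact eq_one_of hz (by nlinarith)

/-- A simple C*-algebra with two pure states that never get equivalent unique extensions. -/
theorem result : ∃ (A : Type) (_ : CStarAlgebra A) (φ ψ : A →L[ℂ] ℂ),
    Nontrivial A ∧ IsSimple A ∧ IsPure φ ∧ IsPure ψ ∧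
    ∀ (B : Type u) [NonUnitalCStarAlgebra B] (ι : A →⋆ₙₐ[ℂ] B), Function.Injective ι →
      ∀ φ' ψ' : B →L[ℂ] ℂ, UniqueExt ι φ φ' → UniqueExt ι ψ ψ' →
        ∀ α : B ≃⋆ₐ[ℂ] B, ¬ ∀ y, φ' y = ψ' (α y) := by
  obtain ⟨A, _, _, S, φ, ψ, hS, n1, p1, v1, n2, p2, v2, v3, hf⟩ := exists_model
  have hs : ∀ i, ‖star (S i)‖ ≤ 1 := fun i => by simpa using hS.norm_le i
  have hc := hS.cocount (f := (ψ : A →ₗ[ℂ] ℂ)) (bd n2) p2 v2 v3
  have nb : ∀ s : Set ℝ, ¬ s.Countable → (cocountable ⊓ 𝓟 s).NeBot := fun s h =>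
    inf_principal_neBot_iff.mpr fun t ht => by
      by_contra h1
      rw [Set.not_nonempty_iff_eq_empty] at h1
      refine h ((mem_cocountable.mp ht).mono fun x hx => ?_)
      exact fun hx' => (h1.subset ⟨hx', hx⟩).elim
  have : (cocountable : Filter ℝ).NeBot := by simpa using nb Set.univ Set.not_countable_univ
  refine ⟨A, inferInstance, φ, ψ, inferInstance, fun I _ => ?_, ⟨⟨p1, nrm n1 (hs 0) v1⟩, ?_⟩,
    ⟨⟨p2, nrm n2 norm_one.le v2⟩, ?_⟩, fun B _ ι _ φ' ψ' h1 h2 α hα => ?_⟩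
  · refine or_iff_not_imp_left.mpr fun h => ?_
    obtain ⟨x, hx, h0⟩ : ∃ x ∈ I, x ≠ 0 := by
      by_contra h1
      push Not at h1
      exact h (eq_bot_iff.mpr fun x hx => (TwoSidedIdeal.mem_bot _).mpr (h1 x hx))
    obtain ⟨μ, ν, h1⟩ := hf x h0
    obtain ⟨j, hj⟩ := (hc (star (wd S ν) * x * wd S μ)).exists
    have h2 := I.mul_mem_left ((ψ (star (wd S ν) * x * wd S μ))⁻¹ • 1) _ (I.mul_mem_right _ (S j)
      (I.mul_mem_left (star (S j)) _ (I.mul_mem_right _ (wd S μ)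
        (I.mul_mem_left (star (wd S ν)) _ hx))))
    rw [hj, smul_mul_smul_comm, mul_one, ContinuousLinearMap.coe_coe, inv_mul_cancel₀ h1,
      one_smul] at h2
    exact I.eq_top h2
  · rintro f ⟨f1, f2⟩ g ⟨g1, g2⟩ ⟨a, b, ha, hb, hab, h⟩
    have h1 := conv ha hb hab ((bd f2.le _).trans (hs 0)) ((bd g2.le _).trans (hs 0))
      ((DFunLike.congr_fun h _).trans v1)
    exact ContinuousLinearMap.coe_injective
      (hS.peak_uniq (f := (f : A →ₗ[ℂ] ℂ)) (bd f2.le) (bd n1) f1 p1 h1 v1)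
  · rintro f ⟨f1, f2⟩ g ⟨g1, g2⟩ ⟨a, b, ha, hb, hab, h⟩
    have h1 := conv ha hb hab ((bd f2.le _).trans norm_one.le) ((bd g2.le _).trans norm_one.le)
      ((DFunLike.congr_fun h _).trans v2)
    refine ContinuousLinearMap.coe_injective
      (hS.vac_uniq (f := (f : A →ₗ[ℂ] ℂ)) (bd f2.le) (bd n2) f1 p2 h1 v2 (fun i => ?_) v3)
    have h2 : a • f (S i * star (S i)) + b • g (S i * star (S i)) = 0 :=
      (DFunLike.congr_fun h _).trans (v3 i)
    have h3 := f1 (star (S i))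
    have h4 := g1 (star (S i))
    rw [star_star] at h3 h4
    exact (smul_eq_zero.mp ((add_eq_zero_iff_of_nonneg (smul_nonneg ha.le h3)
      (smul_nonneg hb.le h4)).mp h2).1).resolve_left ha.ne'
  · have hι := NonUnitalStarAlgHom.norm_apply_le ι
    have key : ∀ g : B →L[ℂ] ℂ, IsState g → g (α (ι (star (S 0)))) = 1 → g = ψ' := by
      intro g hg g1
      let g' : B →L[ℂ] ℂ := LinearMap.mkContinuous ((g : B →ₗ[ℂ] ℂ) ∘ₗ (α : B →ₗ[ℂ] B)) 1
        fun y => by simpa [StarAlgEquiv.norm_map] using bd hg.2.le (α y)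
      have n3 : ‖g'‖ ≤ 1 := LinearMap.mkContinuous_norm_le _ zero_le_one _
      have p3 : ∀ x, 0 ≤ g' (star x * x) := fun x => by
        change 0 ≤ g (α _)
        simpa only [map_mul, map_star] using hg.1 (α x)
      have h3 := hS.peak_uniq (f := (g' : B →ₗ[ℂ] ℂ) ∘ₗ (ι : A →ₗ[ℂ] B))
        (fun x => (bd n3 _).trans (hι x)) (bd n1) (fun x => by
          change 0 ≤ g' (ι _)
          simpa only [map_mul, map_star] using p3 (ι x)) p1 g1 v1
      have h4 := h1.2.2 g' ⟨p3, nrm n3 ((hι _).trans (hs 0)) g1⟩ fun a => DFunLike.congr_fun h3 a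
      ext y
      have := hα (α.symm y)
      rw [← h4, α.apply_symm_apply] at this
      rw [← this]
      exact (congrArg g (α.apply_symm_apply y)).symm
    let ω : ℝ → B →L[ℂ] ℂ := fun j =>
      ψ' ∘L ContinuousLinearMap.mulLeftRight ℂ B (star (ι (S j))) (ι (S j))
    have w1 : ∀ j, ‖ω j‖ ≤ 1 := fun j => by
      have a1 := (hι _).trans (hS.norm_le j)
      refine (ContinuousLinearMap.opNorm_comp_le _ _).trans ?_
      rw [h2.1.2, one_mul]
      refine (ContinuousLinearMap.opNorm_mulLeftRight_apply_apply_le _ _ _ _).trans ?_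
      rw [norm_star]
      nlinarith [norm_nonneg (ι (S j))]
    have w2 : ∀ j x, 0 ≤ ω j (star x * x) := fun j x => by
      simpa [ω, mul_assoc] using h2.1.1 (x * ι (S j))
    have w3 : ∀ j a, ω j (ι a) = ψ (star (S j) * a * S j) := fun j a => by
      simp [ω, ← h2.2.1, map_star]
    have w4 : ‖ι 1‖ ≤ 1 := (hι _).trans norm_one.le
    set b := α (ι (star (S 0)))
    have w5 : ∀ n : ℕ, ∀ᶠ j in cocountable, ‖ω j b - 1‖ < 1 / ((n : ℝ) + 1) := fun n => by
      by_contra h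
      have := nb _ (mt mem_cocountable.mpr h)
      obtain ⟨U, hU⟩ := Ultrafilter.exists_le
        (cocountable ⊓ 𝓟 {j | ‖ω j b - 1‖ < 1 / ((n : ℝ) + 1)}ᶜ)
      obtain ⟨g, g1, g2⟩ := ulim U ω w1
      have g3 : ∀ a, g (ι a) = ψ a := fun a => tendsto_nhds_unique (g2 _)
        (tendsto_const_nhds.congr' (((hc a).filter_mono (hU.trans inf_le_left)).mono fun j hj => by
          simp [w3, hj, v2]))
      have g4 := h2.2.2 g ⟨fun x => ge_of_tendsto' (g2 _) fun j => w2 j x,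
        nrm g1 w4 ((g3 1).trans v2)⟩ g3
      have g6 : ∀ᶠ j in U, ¬ ‖ω j b - 1‖ < 1 / ((n : ℝ) + 1) :=
        le_principal_iff.mp (hU.trans inf_le_right)
      have g5 := ge_of_tendsto ((g2 b).sub_const 1).norm (g6.mono fun j hj => not_lt.mp hj)
      rw [g4, ← hα, h1.2.1, v1, sub_self, norm_zero] at g5
      exact g5.not_gt (by positivity)
    obtain ⟨j, hj⟩ := (ev_all w5).exists
    have w6 : ω j b = 1 := by
      by_contra h
      obtain ⟨n, hn⟩ := exists_nat_one_div_lt (norm_pos_iff.mpr (sub_ne_zero.mpr h))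
      exact (hj n).not_gt hn
    have w7 := key (ω j) ⟨w2 j, nrm (w1 j) w4 (by simp [w3, hS.rel, v2])⟩ w6
    have w8 := w3 j (S j * star (S j))
    rw [w7, h2.2.1, v3, ← mul_assoc, hS.rel, if_pos rfl, one_mul, hS.rel, if_pos rfl, v2] at w8
    exact zero_ne_one w8

end Pool.Agent.Results.MP_8219a1_an.PeakVac
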